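import Pool.Agent.Lib.MP_b06295_co.Main

/-!
# Automorphism groups of coprime order in proper minor-closed classes

Let `𝒞` be a class of finite graphs closed under subcontractions (`IsMinor`, the usual definition
by branch sets; it contains isomorphism as a special case) which does not contain all finite graphs.
Then there is `N` such that every finite group `G` which is isomorphic to the automorphism group of
a graph in `𝒞` and whose order is divisible by no prime less than `N` is in the smallest class
`InW` of groups which contains the finite cyclic groups and is closed under isomorphism, direct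
products and permutational wreath products.
-/

set_option autoImplicit false

namespace Pool.Agent.Results.MP_b06295_co.CoprimeAut

open Pool.Agent.Lib.MP_b06295_co

theorem result (𝒞 : ∀ V : Type, SimpleGraph V → Prop)
    (hclosed : ∀ (V W : Type) [Finite V] [Finite W] (X : SimpleGraph V) (Y : SimpleGraph W),
      𝒞 V X → IsMinor Y X → 𝒞 W Y)
    (hproper : ∃ (W : Type) (_ : Finite W) (Y : SimpleGraph W), ¬ 𝒞 W Y) :
    ∃ N : ℕ, ∀ (V : Type) [Finite V] (X : SimpleGraph V), 𝒞 V X →
      ∀ (G : Type) [Group G] [Finite G], Nonempty (G ≃* (X ≃g X)) →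
        (∀ p : ℕ, p.Prime → p ∣ Nat.card G → N ≤ p) → InW G := by
  obtain ⟨W, _, Y, hY⟩ := hproper
  refine ⟨2 ^ Nat.card W + 1, ?_⟩
  rintro V _ X hX G _ _ ⟨e⟩ hp
  refine main_k (k := Nat.card W) (X := X) (fun hm => hY ?_) e hp
  refine hclosed _ _ X Y hX ?_
  obtain ⟨B, h1, h2, h3⟩ := hm
  let φ : W ≃ Fin (Nat.card W) := Finite.equivFin W
  refine ⟨fun w => B (φ w), fun w => h1 _, fun w w' hww => h2 _ _ (φ.injective.ne hww),
    fun w w' hww => h3 _ _ ?_⟩
  rw [SimpleGraph.top_adj]
  exact φ.injective.ne hww.ne

end Pool.Agent.Results.MP_b06295_co.CoprimeAut
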